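import Mathlib
import Pool.Agent.W743.GV.Stm

/-! Project GV: the pressure function from the implicit function theorem. -/

set_option autoImplicit false

open Set
open scoped ContDiff Topology

namespace Pool.Agent.W977.GV

open Pool.Agent.W743.GV

noncomputable section

theorem lf_apply (a b c : ℝ) (v : E3) : lf a b c v = a * v 0 + b * v 1 + c * v 2 := by
  simp [lf]

theorem coord_deriv (i : Fin 3) (x : E3) :
    HasFDerivAt (fun z : E3 => z i) (EuclideanSpace.proj i : E3 →L[ℝ] ℝ) x :=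
  (EuclideanSpace.proj i : E3 →L[ℝ] ℝ).hasFDerivAt

theorem ss_deriv (x : E3) : HasFDerivAt ss (lf (2 * x 0) (2 * x 1) 0) x := by
  have h0 := coord_deriv 0 x
  have h1 := coord_deriv 1 x
  have h2 := (h0.mul h0).add (h1.mul h1)
  have e : ss = fun z : E3 => z 0 * z 0 + z 1 * z 1 := by
    funext z
    unfold ss
    ring
  rw [e]
  refine h2.congr_fderiv ?_
  refine ContinuousLinearMap.ext fun v => ?_
  rw [lf_apply]
  simp
  ring

theorem key {d : ℝ} {b f : ℝ → ℝ} {Z : ℝ × ℝ → ℝ} (hD : Data d b f) (hZ : IsPot d b f Z)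
    (h : E3 → ℝ) (h' : E3 →L[ℝ] ℝ) (x : E3) (hh : HasFDerivAt h h' x) (hx0 : 0 < x 0)
    (hs : ss x ∈ J d) (hp : h x ∈ J d) :
    HasFDerivAt (fun z : E3 => Real.arctan (z 1 * (z 0)⁻¹) + Z (ss z, h z) - Z (1, 1))
      (lf (-x 1 / ss x + QQ b f (ss x) (h x) * x 0 / (ss x * √(MM b f (ss x) (h x))))
          (x 0 / ss x + QQ b f (ss x) (h x) * x 1 / (ss x * √(MM b f (ss x) (h x)))) 0
        + (1 / (2 * √(MM b f (ss x) (h x)))) • h') x := by
  have hM := hD.Mpos _ hs _ hp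
  have hr : 0 < √(MM b f (ss x) (h x)) := Real.sqrt_pos.mpr hM
  have hss : 0 < ss x := by
    unfold ss
    positivity
  have h0 := coord_deriv 0 x
  have h1 := coord_deriv 1 x
  have hinv : HasFDerivAt (fun z : E3 => (z 0)⁻¹)
      ((-(x 0 ^ 2)⁻¹) • (EuclideanSpace.proj 0 : E3 →L[ℝ] ℝ)) x :=
    (hasDerivAt_inv hx0.ne').comp_hasFDerivAt x h0
  have hq : HasFDerivAt (fun z : E3 => z 1 * (z 0)⁻¹)
      (x 1 • ((-(x 0 ^ 2)⁻¹) • (EuclideanSpace.proj 0 : E3 →L[ℝ] ℝ)) +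
        (x 0)⁻¹ • (EuclideanSpace.proj 1 : E3 →L[ℝ] ℝ)) x := h1.mul hinv
  have ha := hq.arctan
  have hz := (hZ.2 (ss x, h x) ⟨hs, hp⟩).comp x ((ss_deriv x).prodMk hh)
  have ht := (ha.add hz).sub_const (Z (1, 1))
  refine HasFDerivAt.congr_fderiv ht ?_
  refine ContinuousLinearMap.ext fun v => ?_
  have hsx : ss x = x 0 ^ 2 + x 1 ^ 2 := rfl
  generalize √(MM b f (ss x) (h x)) = r at hr ⊢
  generalize QQ b f (ss x) (h x) = Q
  have hproj : ∀ i : Fin 3, (EuclideanSpace.proj i : E3 →L[ℝ] ℝ) v = v i := fun i => rfl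
  simp only [add_apply, smul_apply, lf_apply,
    ContinuousLinearMap.comp_apply, ContinuousLinearMap.prod_apply, ContinuousLinearMap.coe_fst',
    ContinuousLinearMap.coe_snd', smul_eq_mul, hproj]
  rw [hsx] at hss ⊢
  have hx0' : x 0 ≠ 0 := hx0.ne'
  have h3 : 1 + (x 1 * (x 0)⁻¹) ^ 2 ≠ 0 := by positivity
  have h4 : (1 : ℝ) / (1 + (x 1 * (x 0)⁻¹) ^ 2) = x 0 ^ 2 / (x 0 ^ 2 + x 1 ^ 2) := by
    rw [div_eq_div_iff h3 hss.ne']
    field_simp
  rw [h4]
  field_simp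
  ring

theorem t_IMP (hINV : S_INV) : S_IMP := by
  intro d b f Z hD hZ
  have hd := hD.hd
  have h1J : (1 : ℝ) ∈ J d := ⟨by linarith, by linarith⟩
  obtain ⟨O, hO⟩ : ∃ O : Set E3, O = {z : E3 | 0 < z 0 ∧ ss z ∈ J d ∧ z 2 ∈ J d} := ⟨_, rfl⟩
  obtain ⟨g, hg⟩ : ∃ g : E3 → ℝ,
      g = fun z : E3 => Real.arctan (z 1 * (z 0)⁻¹) + Z (ss z, z 2) - Z (1, 1) := ⟨_, rfl⟩
  obtain ⟨y, hy⟩ : ∃ y : E3, y = !₂[1, 0, 1] := ⟨_, rfl⟩
  have hy0 : y 0 = 1 := by rw [hy]; rfl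
  have hy1 : y 1 = 0 := by rw [hy]; rfl
  have hy2 : y 2 = 1 := by rw [hy]; rfl
  have hssy : ss y = 1 := by
    unfold ss
    rw [hy0, hy1]
    norm_num
  have hc : ∀ i : Fin 3, ContDiff ℝ ∞ (fun z : E3 => z i) := fun i =>
    (EuclideanSpace.proj i : E3 →L[ℝ] ℝ).contDiff
  have hssc : ContDiff ℝ ∞ ss := ((hc 0).pow 2).add ((hc 1).pow 2)
  have hOo : IsOpen O := by
    rw [hO]
    exact (isOpen_lt continuous_const (hc 0).continuous).inter
      ((isOpen_Ioo.preimage hssc.continuous).inter (isOpen_Ioo.preimage (hc 2).continuous))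
  have hyO : y ∈ O := by
    rw [hO]
    refine ⟨?_, ?_, ?_⟩
    · rw [hy0]; norm_num
    · rw [hssy]; exact h1J
    · rw [hy2]; exact h1J
  have hgc : ContDiffOn ℝ ∞ g O := by
    rw [hg]
    have e1 : ContDiffOn ℝ ∞ (fun z : E3 => z 1 * (z 0)⁻¹) O := by
      refine (hc 1).contDiffOn.mul ((hc 0).contDiffOn.inv fun z hz => ?_)
      rw [hO] at hz
      exact hz.1.ne'
    have e2 : ContDiffOn ℝ ∞ (fun z : E3 => Real.arctan (z 1 * (z 0)⁻¹)) O :=
      Real.contDiff_arctan.comp_contDiffOn e1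
    have e3 : ContDiffOn ℝ ∞ (fun z : E3 => Z (ss z, z 2)) O := by
      refine hZ.1.comp (hssc.contDiffOn.prodMk (hc 2).contDiffOn) ?_
      intro z hz
      rw [hO] at hz
      exact ⟨hz.2.1, hz.2.2⟩
    exact (e2.add e3).sub contDiffOn_const
  have hne : fderiv ℝ g y (EuclideanSpace.single 2 1) ≠ 0 := by
    have h1 := key hD hZ (fun z : E3 => z 2) (EuclideanSpace.proj 2 : E3 →L[ℝ] ℝ) y
      (coord_deriv 2 y) (by rw [hy0]; norm_num) (by rw [hssy]; exact h1J)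
      (by show y 2 ∈ J d; rw [hy2]; exact h1J)
    have hr : 0 < √(MM b f (ss y) (y 2)) :=
      Real.sqrt_pos.mpr (hD.Mpos _ (by rw [hssy]; exact h1J) _ (by rw [hy2]; exact h1J))
    rw [hg, h1.fderiv]
    generalize √(MM b f (ss y) (y 2)) = r at hr ⊢
    rw [add_apply, smul_apply, lf_apply]
    have e0 : (EuclideanSpace.single (2 : Fin 3) (1 : ℝ) : E3) 0 = 0 := by simp
    have e1 : (EuclideanSpace.single (2 : Fin 3) (1 : ℝ) : E3) 1 = 0 := by simp
    have e2 : (EuclideanSpace.proj 2 : E3 →L[ℝ] ℝ) (EuclideanSpace.single (2 : Fin 3) (1 : ℝ)) = 1 := by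
      simp
    rw [e0, e1, e2]
    simp
    exact hr.ne'
  obtain ⟨U, p, hU, hUc, hpt, hp1, hpc, hpx⟩ := hINV O g y hOo hyO hgc hne
  have hgy : g y = 0 := by
    rw [hg]
    show Real.arctan (y 1 * (y 0)⁻¹) + Z (ss y, y 2) - Z (1, 1) = 0
    rw [hy0, hy1, hy2, hssy]
    simp
  rw [hy0, hy1, hgy] at hpt hp1
  rw [hy2] at hp1
  have hmem : ∀ x ∈ U, 0 < x 0 ∧ ss x ∈ J d ∧ p x ∈ J d := by
    intro x hx
    have h := (hpx x hx).1
    rw [hO] at h
    exact h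
  have hval : ∀ x ∈ U, Real.arctan (x 1 * (x 0)⁻¹) + Z (ss x, p x) - Z (1, 1) = x 2 := by
    intro x hx
    have h := (hpx x hx).2
    rw [hg] at h
    exact h
  refine ⟨U, p, hU, hUc, hpt, hp1, fun x hx => (hmem x hx).2.1, fun x hx => (hmem x hx).2.2,
    hpc, ?_⟩
  intro x hx
  obtain ⟨hx0, hsx, hpJ⟩ := hmem x hx
  have hUn : U ∈ 𝓝 x := hU.mem_nhds hx
  have hdiff : DifferentiableAt ℝ p x := (hpc.contDiffAt hUn).differentiableAt (by simp)
  have hder := hdiff.hasFDerivAt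
  have h1 := key hD hZ p (fderiv ℝ p x) x hder hx0 hsx hpJ
  have h2 : HasFDerivAt (fun z : E3 => Real.arctan (z 1 * (z 0)⁻¹) + Z (ss z, p z) - Z (1, 1))
      (EuclideanSpace.proj 2 : E3 →L[ℝ] ℝ) x := by
    refine (coord_deriv 2 x).congr_of_eventuallyEq ?_
    filter_upwards [hUn] with z hz
    exact hval z hz
  have h3 := h1.unique h2
  have hr : 0 < √(MM b f (ss x) (p x)) := Real.sqrt_pos.mpr (hD.Mpos _ hsx _ hpJ)
  have hss : 0 < ss x := by
    unfold ss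
    positivity
  refine hder.congr_fderiv ?_
  refine ContinuousLinearMap.ext fun v => ?_
  have h4 := congrArg (fun T : E3 →L[ℝ] ℝ => T v) h3
  have hproj : (EuclideanSpace.proj 2 : E3 →L[ℝ] ℝ) v = v 2 := rfl
  simp only [add_apply, smul_apply, lf_apply, smul_eq_mul, hproj] at h4
  unfold Lp
  rw [lf_apply]
  generalize fderiv ℝ p x v = l at h4 ⊢
  generalize √(MM b f (ss x) (p x)) = r at hr h4 ⊢
  generalize QQ b f (ss x) (p x) = Q at h4 ⊢
  generalize ss x = s at hss h4 ⊢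
  rw [← h4]
  field_simp
  ring

end

end Pool.Agent.W977.GV
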